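import Pool.Agent.Lib.MP_391708_nt.Eqd.Defs

/-!
# Positive proportion of both signs of the Liouville function at `n² + 1`: definitions

Four-term relations: `G P Q = M² + 1`, `D D₂ = X - G`, `X ∣ F₁ = P D² - 2 M D + G Q`; then
`X T = F₁`, `X P T = (D P - M)² + 1`, `X R = F₂`, `X Q R = (M + D₂ Q)² + 1`, `G R T = M₃² + 1`.
All moduli with primes `≤ E`: `W₀ ∣ D`, `W₀ ∣ D₂`, `G` and `X` prime to `W₀`.
-/

set_option autoImplicit false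

namespace Pool.Agent.Lib.MP391708.T4

open Finset Filter Topology
open Pool.Agent.Lib.MP391708.Eqd (V cross dot nsq pairs)
open scoped Classical

noncomputable section

/-! ## Parameters -/

/-- the parameters, chosen in the order `E, K, r, k, ζ` -/
structure Prm where
  E : ℕ
  K : ℕ
  r : ℕ
  k : ℕ
  ζ : ℝ

/-- `φ` holds if `E` is large, `K` is large (depending on `E`), `r`, `k` are large, `ζ` is small -/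
def Good (φ : Prm → Prop) : Prop :=
  ∃ E₀ : ℕ, ∀ E : ℕ, E₀ ≤ E → ∃ K₀ : ℕ, ∀ K : ℕ, K₀ ≤ K → ∃ r₀ : ℕ, ∀ r : ℕ, r₀ ≤ r →
    ∃ k₀ : ℕ, ∀ k : ℕ, k₀ ≤ k → ∃ ζ₀ : ℝ, 0 < ζ₀ ∧ ∀ ζ : ℝ, 0 < ζ → ζ ≤ ζ₀ → φ ⟨E, K, r, k, ζ⟩

/-- the sieving limit `z = N ^ ζ` -/
def zz (p : Prm) (N : ℕ) : ℝ := (N : ℝ) ^ p.ζ

def Y1 (p : Prm) (N : ℕ) : ℝ := zz p N ^ p.k
def Y2 (p : Prm) (N : ℕ) : ℝ := zz p N ^ (p.r * p.k)
def Y3 (p : Prm) (N : ℕ) : ℝ := zz p N ^ (10 * p.r * p.k)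
def Y4 (p : Prm) (N : ℕ) : ℝ := zz p N ^ (10 * p.r ^ 2 * p.k)

/-- a bound for all moduli -/
def ML (p : Prm) (N : ℕ) : ℝ := zz p N ^ (1000 * (p.K + 1) * (p.r + 1) ^ 2 * (p.k + 1))

/-- the fixed modulus at the primes `≤ E` -/
def W0 (p : Prm) : ℕ := primorial p.E ^ p.E

/-- the sieving primes: `l ≡ 1 (mod 4)`, `E < l < z` -/
def PP (p : Prm) (N : ℕ) : Finset ℕ :=
  (range ⌈zz p N⌉₊).filter (fun l => l.Prime ∧ l % 4 = 1 ∧ p.E < l)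

/-- the part of `n` composed of sieving primes -/
def sm (p : Prm) (N : ℕ) (n : ℕ) : ℕ := ∏ l ∈ PP p N, l ^ n.factorization l

/-- the part of `n` composed of primes `≤ E` -/
def ep (p : Prm) (n : ℕ) : ℕ := ∏ l ∈ (range (p.E + 1)).filter Nat.Prime, l ^ n.factorization l

/-- no `E`-th power of a prime `≤ E` divides `n` -/
def tame (p : Prm) (n : ℕ) : Prop := ∀ l : ℕ, l.Prime → l ≤ p.E → ¬ l ^ p.E ∣ n

/-- the number of sieving primes dividing `n` -/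
def om (p : Prm) (N : ℕ) (n : ℕ) : ℕ := ((PP p N).filter (fun l => l ∣ n)).card

/-- `e ^ S0 ≍ log z` -/
def S0 (p : Prm) (N : ℕ) : ℝ := ∑ l ∈ PP p N, 2 / (l : ℝ)

/-- the character modulo 4 -/
def ch (l : ℕ) : ℝ := ((ZMod.χ₄ (l : ZMod 4) : ℤ) : ℝ)

/-- `∏_{l ∣ D} (1 - χ(l)/l)` -/
def rp (D : ℕ) : ℝ := ∏ l ∈ D.primeFactors, (1 - ch l / l)

/-- the number of distinct prime factors -/
def wn (n : ℕ) : ℕ := n.primeFactors.card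

/-- `2 ^ ω(n) / n` -/
def dn (n : ℕ) : ℝ := 2 ^ wn n / n

/-! ## Unimodular pairs of vectors `x = (v, w)`, `cross v w = -1` -/

/-- pairs of vectors -/
abbrev VV := V × V

/-- `M = v · w` -/
def mm (x : VV) : ℤ := dot x.1 x.2
/-- `d = |v|²` -/
def dd (x : VV) : ℤ := nsq x.1
/-- `e = |w|²` -/
def ee (x : VV) : ℤ := nsq x.2

/-- `|s v + t w|²`; for `x` unimodular a quadratic form of discriminant `-4` -/
def qf (x : VV) (s t : ℤ) : ℤ := dd x * s ^ 2 + 2 * mm x * s * t + ee x * t ^ 2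

/-- the unimodular pairs with `N < M ≤ 2N`, `α M < d ≤ β M` -/
def Gam (N : ℕ) (α β : ℝ) : Finset VV :=
  (pairs 1 (10 * (N + 1) ^ 2)).filter (fun x => (N : ℤ) < mm x ∧ mm x ≤ 2 * N ∧
    α * (mm x : ℝ) < (dd x : ℝ) ∧ (dd x : ℝ) ≤ β * (mm x : ℝ))

/-- congruence modulo `q` -/
def cg (q : ℕ) (x y : VV) : Prop :=
  (q : ℤ) ∣ x.1.1 - y.1.1 ∧ (q : ℤ) ∣ x.1.2 - y.1.2 ∧ (q : ℤ) ∣ x.2.1 - y.2.1 ∧
    (q : ℤ) ∣ x.2.2 - y.2.2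

/-- representatives of the residue classes modulo `q` with `cross = -1` -/
def cls (q : ℕ) : Finset VV :=
  ((Ico (0 : ℤ) q ×ˢ Ico (0 : ℤ) q) ×ˢ (Ico (0 : ℤ) q ×ˢ Ico (0 : ℤ) q)).filter
    (fun x => (q : ℤ) ∣ cross x.1 x.2 + 1)

/-- `F` is periodic modulo `q` -/
def Per (q : ℕ) (F : VV → ℝ) : Prop := ∀ x y : VV, cg q x y → F x = F y

/-- the mean value over the classes modulo `q` -/
def mean (q : ℕ) (F : VV → ℝ) : ℝ := (∑ x ∈ cls q, F x) / ((cls q).card : ℝ)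

/-- `w` is a product of local functions: `F` modulo `m`, and `f l` modulo `l` for the `l ∈ P`,
`l ∤ m`, with `mean (1 - f l) ≤ κ / l` -/
structure Loc (P : Finset ℕ) (κ : ℝ) (m : ℕ) (w F : VV → ℝ) (f : ℕ → VV → ℝ) : Prop where
  w_eq : ∀ x : VV, cross x.1 x.2 = -1 → w x = F x * ∏ l ∈ P.filter (fun l => ¬ l ∣ m), f l x
  perF : Per m F
  F_nn : ∀ x, 0 ≤ F x
  F_le : ∀ x, F x ≤ 1
  perf : ∀ l ∈ P, ¬ l ∣ m → Per l (f l)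
  f_nn : ∀ l ∈ P, ¬ l ∣ m → ∀ x, 0 ≤ f l x
  f_le : ∀ l ∈ P, ¬ l ∣ m → ∀ x, f l x ≤ 1
  f_mean : ∀ l ∈ P, ¬ l ∣ m → mean l (fun x => 1 - f l x) ≤ κ / l

/-- squarefree, all prime factors `≥ z`, `≡ 1 (mod 4)` -/
def Rgh (p : Prm) (N : ℕ) (H : ℕ) : Prop :=
  Squarefree H ∧ ∀ l : ℕ, l.Prime → l ∣ H → zz p N ≤ (l : ℝ) ∧ l % 4 = 1

/-- `(s, t)` is primitive modulo all prime factors of `H` -/
def prim (H : ℕ) (s t : ℤ) : Prop := ∀ l : ℕ, l.Prime → l ∣ H → ¬ ((l : ℤ) ∣ s ∧ (l : ℤ) ∣ t)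

/-! ## Relations -/

/-- a relation `(M, G, P, Q, D, X)`; `D` may be negative -/
abbrev Rl := ℕ × ℕ × ℕ × ℕ × ℤ × ℕ

def rM (r : Rl) : ℕ := r.1
def rG (r : Rl) : ℕ := r.2.1
def rP (r : Rl) : ℕ := r.2.2.1
def rQ (r : Rl) : ℕ := r.2.2.2.1
def rD (r : Rl) : ℤ := r.2.2.2.2.1
def rX (r : Rl) : ℕ := r.2.2.2.2.2

/-- `D₂ = (X - G) / D` -/
def D2 (r : Rl) : ℤ := ((rX r : ℤ) - rG r) / rD r

def F1 (r : Rl) : ℤ := rP r * rD r ^ 2 - 2 * rM r * rD r + rG r * rQ r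
def F2 (r : Rl) : ℤ := rQ r * D2 r ^ 2 + 2 * rM r * D2 r + rG r * rP r

def rT (r : Rl) : ℕ := (F1 r / rX r).natAbs
def rR (r : Rl) : ℕ := (F2 r / rX r).natAbs

/-- `M₄ = D P - M` -/
def M4 (r : Rl) : ℤ := rD r * rP r - rM r
/-- `M₂ = M + D₂ Q` -/
def M2 (r : Rl) : ℤ := rM r + D2 r * rQ r
/-- `M₃ = D R - M₂ = M₄ - D₂ T` (positive in the critical window) -/
def M3 (r : Rl) : ℤ := rD r * rR r - M2 r

/-- the relation -/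
def IsR (r : Rl) : Prop :=
  0 < rG r ∧ 0 < rP r ∧ 0 < rQ r ∧ rD r ≠ 0 ∧ 0 < rX r ∧ rG r * rP r * rQ r = rM r ^ 2 + 1 ∧
    rD r ∣ (rX r : ℤ) - rG r ∧ (rX r : ℤ) ∣ F1 r ∧ Nat.Coprime (rG r) (rX r)

/-- the same relation seen from `M₄` -/
def role4 (r : Rl) : Rl := ((M4 r).natAbs, rX r, rP r, rT r, rD r, rG r)
/-- the same relation seen from `M₂` -/
def role2 (r : Rl) : Rl := ((M2 r).natAbs, rX r, rR r, rQ r, rD r, rG r)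
/-- the same relation seen from `M₃` -/
def role3 (r : Rl) : Rl := ((M3 r).natAbs, rG r, rR r, rT r, rD r, rX r)

def rbox (B : ℕ) : Finset Rl :=
  range B ×ˢ range B ×ˢ range B ×ˢ range B ×ˢ Ioo (-(B : ℤ)) B ×ˢ range B

/-- conditions at the primes `≤ E` -/
def small (p : Prm) (r : Rl) : Prop :=
  (W0 p : ℤ) ∣ rD r ∧ (W0 p : ℤ) ∣ D2 r ∧ Nat.Coprime (rG r * rX r) (W0 p) ∧
    tame p (rM r ^ 2 + 1)

/-- the general set of relations -/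
def RG (p : Prm) (N : ℕ) : Finset Rl := (rbox (10000 * (N + 1) ^ 2)).filter (fun r =>
  IsR r ∧ small p r ∧ N ≤ 2 * rM r ∧ rM r ≤ 8 * N ∧
  (rM r : ℤ) ≤ 3 * (|rD r| * rP r) ∧ |rD r| * rP r ≤ 10 * rM r ∧
  |D2 r| * rQ r * rM r ≤ 10 * ((rM r : ℤ) ^ 2 + 1) ∧
  rX r ≤ 100 * rG r ∧ rG r ≤ 100 * rX r ∧
  Squarefree (rG r) ∧ Squarefree (rX r) ∧ IsCoprime (rD r) (rG r : ℤ) ∧
  (∀ l : ℕ, l.Prime → (l : ℤ) ∣ rD r → l ∣ rQ r → l ≤ p.E) ∧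
  (∀ l ∈ PP p N, ¬ l ^ 2 ∣ rM r ^ 2 + 1) ∧
  (sm p N (rM r ^ 2 + 1) : ℝ) ≤ zz p N ^ (4 * p.K) ∧ (sm p N (rX r) : ℝ) ≤ zz p N ^ (4 * p.K) ∧
  Y1 p N / zz p N ^ (4 * p.K) ≤ (|rD r| : ℝ) ∧ (|rD r| : ℝ) ≤ Y2 p N * zz p N ^ (4 * p.K) ∧
  Y1 p N * Y3 p N ≤ 10 * (rG r : ℝ) ∧
  (rG r : ℝ) ≤ 10 * (Y2 p N * Y4 p N * zz p N ^ (4 * p.K)))

/-- the relations at `M` in the critical window, with all conditions -/
def RP (p : Prm) (e₁ : ℝ) (N : ℕ) : Finset Rl := (rbox (10000 * (N + 1) ^ 2)).filter (fun r =>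
  IsR r ∧ small p r ∧ N < rM r ∧ rM r ≤ 2 * N ∧
  2 * (rM r : ℤ) < rD r * rP r ∧ rD r * rP r ≤ 3 * (rM r : ℤ) ∧
  (rM r : ℤ) ^ 2 + 1 ≤ D2 r * rQ r * rM r ∧ D2 r * rQ r * rM r < 2 * ((rM r : ℤ) ^ 2 + 1) ∧
  Squarefree (rG r) ∧ Squarefree (rX r) ∧ IsCoprime (rD r) (rG r : ℤ) ∧
  (∀ l : ℕ, l.Prime → (l : ℤ) ∣ rD r → l ∣ rQ r → l ≤ p.E) ∧
  (∃ u v : ℕ, u.Prime ∧ v.Prime ∧ Y1 p N ≤ (u : ℝ) ∧ (u : ℝ) ≤ Y2 p N ∧ Y3 p N ≤ (v : ℝ) ∧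
    (v : ℝ) ≤ Y4 p N ∧ rG r = sm p N (rG r) * u * v) ∧
  (∀ l ∈ PP p N, ¬ l ^ 2 ∣ rG r * rP r * rQ r * rX r * rT r * rR r) ∧
  Y1 p N / zz p N ^ (4 * p.K) ≤ (rD r : ℝ) ∧ (rD r : ℝ) ≤ Y2 p N * zz p N ^ (4 * p.K) ∧
  (sm p N (rX r) : ℝ) ≤ zz p N ^ p.K ∧
  (sm p N (rM r ^ 2 + 1) : ℝ) ≤ zz p N ^ (2 * p.K) ∧
  (sm p N ((M2 r).natAbs ^ 2 + 1) : ℝ) ≤ zz p N ^ (4 * p.K) ∧
  (sm p N ((M3 r).natAbs ^ 2 + 1) : ℝ) ≤ zz p N ^ (4 * p.K) ∧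
  (sm p N ((M4 r).natAbs ^ 2 + 1) : ℝ) ≤ zz p N ^ (4 * p.K) ∧
  (2 - e₁) * S0 p N ≤ (om p N (rM r ^ 2 + 1) : ℝ) ∧
  (1 / 2 - e₁) * S0 p N ≤ (om p N (rX r) + om p N (rT r) + om p N (rR r) : ℝ))

/-- the tilt at the linear forms, over the sieving primes not dividing `(M² + 1) X` -/
def tilt (p : Prm) (N : ℕ) (bT bR : ℝ) (r : Rl) : ℝ :=
  ∏ l ∈ (PP p N).filter (fun l => ¬ l ∣ (rM r ^ 2 + 1) * rX r),
    (if (l : ℤ) ∣ F1 r then bT else 1) * (if (l : ℤ) ∣ F2 r then bR else 1)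

/-- weights of the colours and of the small variables -/
structure Wts where
  cG : ℝ
  cP : ℝ
  cQ : ℝ
  al : ℝ
  bT : ℝ
  bR : ℝ

/-- admissible weights -/
def Wts.ok (c : Wts) : Prop :=
  0 < c.cG ∧ 0 < c.cP ∧ 0 < c.cQ ∧ c.cG + c.cP + c.cQ = 1 ∧ 0 < c.al ∧ c.al ≤ 1 ∧ 0 < c.bT ∧
    c.bT ≤ 1 ∧ 0 < c.bR ∧ c.bR ≤ 1

/-- `τ = 3 - α - β_T - β_R` -/
def Wts.tau (c : Wts) : ℝ := 3 - c.al - c.bT - c.bR

/-- the general weight -/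
def UW (p : Prm) (N : ℕ) (c : Wts) (r : Rl) : ℝ :=
  Real.exp (c.tau * S0 p N) / rp (rD r).natAbs * c.cG ^ om p N (rG r) * c.cP ^ om p N (rP r) *
    c.cQ ^ om p N (rQ r) * c.al ^ om p N (rX r) * tilt p N c.bT c.bR r

/-- the weight in the critical window, up to a bounded factor -/
def WC (p : Prm) (N : ℕ) (r : Rl) : ℝ :=
  Real.exp (5 / 2 * S0 p N) / rp (rD r).natAbs * (1 / 3 : ℝ) ^ om p N (rM r ^ 2 + 1) *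
    (1 / 6 : ℝ) ^ (om p N (rX r) + om p N (rT r) + om p N (rR r))

/-- the weight of `(D, X)` with `X ∣ F₁` replaced by its probability at the primes `≥ z` -/
def vh (p : Prm) (N : ℕ) (al bT bR : ℝ) (r : Rl) : ℝ :=
  1 / rp (rD r).natAbs * al ^ om p N (rX r) * dn (rX r / sm p N (rX r)) *
    (if (sm p N (rX r) : ℤ) ∣ F1 r then 1 else 0) * tilt p N bT bR r

/-- the number of critical divisors -/
def nu (M : ℕ) : ℕ := ((M ^ 2 + 1).divisors.filter (fun d => M < d ∧ d ≤ 2 * M)).card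

/-- the Liouville function -/
def lam (n : ℕ) : ℤ := (-1) ^ ArithmeticFunction.cardFactors n

end

end Pool.Agent.Lib.MP391708.T4
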