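import Pool.Agent.Lib.MP_391708_nt.T4.Defs

/-!
# Positive proportion of both signs: the interface statements between the groups

`C, D ⟶ SpecEQ, SpecFL, SpecCMP`;  `E ⟶ SpecPHI, SpecPHU`;  `G ⟶ SpecNG`;  `J ⟶ SpecNU`;
`H ⟶ SpecAA`;  `I ⟶ SpecBB`;  `A ⟶ SpecA`;  `K ⟶ SpecSGN`, final theorem.
-/

set_option autoImplicit false

namespace Pool.Agent.Lib.MP391708.T4

open Finset Filter Topology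
open Pool.Agent.Lib.MP391708.Eqd (V cross dot nsq pairs)
open scoped Classical

noncomputable section

/-! ## C, D: counting -/

/-- `#Γ ≤ C N` for a window of bounded ratio, and `#Γ ≥ c N` for the critical window -/
def SpecCNT : Prop :=
  (∃ C : ℝ, 0 < C ∧ ∀ (N : ℕ) (α β : ℝ), 1 ≤ N → 0 < α → β ≤ 100 * α →
    ((Gam N α β).card : ℝ) ≤ C * N) ∧
  ∃ c : ℝ, 0 < c ∧ ∀ᶠ N : ℕ in atTop, c * N ≤ ((Gam N 1 2).card : ℝ)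

/-- equidistribution modulo `m ≤ N ^ c` -/
def SpecEQ : Prop :=
  ∃ c : ℝ, 0 < c ∧ ∀ᶠ N : ℕ in atTop, ∀ (m : ℕ) (F : VV → ℝ) (α β : ℝ), 0 < m →
    (m : ℝ) ≤ (N : ℝ) ^ c → Per m F → (∀ x, 0 ≤ F x) → (∀ x, F x ≤ 1) →
    (N : ℝ) ^ (-c) ≤ α → α < β → β ≤ 20 →
    |∑ x ∈ Gam N α β, F x - ((Gam N α β).card : ℝ) * mean m F| ≤ (N : ℝ) ^ (1 - c)

/-- fundamental lemma: products of local functions, two-sided; the range `(N₁, 2 N₁]` of `M` may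
differ from `(N, 2 N]` by a bounded factor -/
def SpecFL : Prop :=
  ∃ c : ℝ, 0 < c ∧ ∀ (κ : ℕ) (ε : ℝ), 0 < ε → Good (fun p => ∀ᶠ N : ℕ in atTop,
    ∀ (N₁ m : ℕ) (w F : VV → ℝ) (f : ℕ → VV → ℝ) (α β : ℝ), N ≤ 4 * N₁ → N₁ ≤ 8 * N →
    0 < m → (m : ℝ) ≤ ML p N →
    Loc (PP p N) κ m w F f → (N : ℝ) ^ (-c) ≤ α → α < β → β ≤ 20 →
    |∑ x ∈ Gam N₁ α β, w x - ((Gam N₁ α β).card : ℝ) * mean m F *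
        ∏ l ∈ (PP p N).filter (fun l => ¬ l ∣ m), (1 - mean l (fun x => 1 - f l x))| ≤
      ε * (((Gam N₁ α β).card : ℝ) * mean m F *
        ∏ l ∈ (PP p N).filter (fun l => ¬ l ∣ m), (1 - mean l (fun x => 1 - f l x))) +
      (N : ℝ) ^ (1 - c))

/-- comparison lemma: conditions at the primes `≥ z` are independent of local weights -/
def SpecCMP : Prop :=
  ∃ c : ℝ, 0 < c ∧ ∀ (κ : ℕ) (ε : ℝ), 0 < ε → Good (fun p => ∀ᶠ N : ℕ in atTop,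
    ∀ (N₁ m : ℕ) (w F : VV → ℝ) (f : ℕ → VV → ℝ) (α β : ℝ) (H₁ H₂ : ℕ) (s₁ t₁ s₂ t₂ : ℤ),
    N ≤ 4 * N₁ → N₁ ≤ 8 * N →
    0 < m → (m : ℝ) ≤ ML p N → Loc (PP p N) κ m w F f →
    (N : ℝ) ^ (-c) ≤ α → α < β → β ≤ 20 →
    Rgh p N H₁ → Rgh p N H₂ → (H₁ : ℝ) ≤ ML p N → (H₂ : ℝ) ≤ ML p N →
    Nat.Coprime H₁ m → Nat.Coprime H₂ m → Nat.Coprime H₁ H₂ → prim H₁ s₁ t₁ → prim H₂ s₂ t₂ →
    (∑ x ∈ Gam N₁ α β, w x * ((if (H₁ : ℤ) ∣ qf x s₁ t₁ then 1 else 0) *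
        (if (H₂ : ℤ) ∣ qf x s₂ t₂ then 1 else 0)) ≤
      (1 + ε) * (dn H₁ * dn H₂) * ∑ x ∈ Gam N₁ α β, w x + (N : ℝ) ^ (1 - c)) ∧
    ((1 - ε) * dn H₁ * ∑ x ∈ Gam N₁ α β, w x - (N : ℝ) ^ (1 - c) ≤
      ∑ x ∈ Gam N₁ α β, w x * (if (H₁ : ℤ) ∣ qf x s₁ t₁ then 1 else 0)))

/-! ## E: the sums over `(D, X)` -/

/-- the sizes of `(M, G, P, Q)` -/
def Adm (p : Prm) (N M G P Q : ℕ) : Prop :=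
  G * P * Q = M ^ 2 + 1 ∧ N ≤ 2 * M ∧ M ≤ 8 * N ∧ Nat.Coprime G (W0 p) ∧ tame p (M ^ 2 + 1) ∧
  (P : ℝ) * Y1 p N ≤ 10 * M * zz p N ^ (4 * p.K) ∧
  (M : ℝ) ≤ 10 * P * (Y2 p N * zz p N ^ (4 * p.K)) ∧
  Y1 p N * Y3 p N ≤ 10 * (G : ℝ) ∧ (G : ℝ) ≤ 10 * (Y2 p N * Y4 p N * zz p N ^ (4 * p.K))

/-- the box for `(D, X)` -/
def dbox (N : ℕ) : Finset (ℤ × ℕ) :=
  Ioo (-((10000 * (N + 1) ^ 2 : ℕ) : ℤ)) ((10000 * (N + 1) ^ 2 : ℕ) : ℤ) ×ˢ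
    range (10000 * (N + 1) ^ 2)

/-- common conditions on `(D, X)` -/
def DX (p : Prm) (M G P Q : ℕ) (t : ℤ × ℕ) : Prop :=
  t.1 ≠ 0 ∧ t.1 ∣ (t.2 : ℤ) - G ∧ (W0 p : ℤ) ∣ t.1 ∧ (W0 p : ℤ) ∣ D2 (M, G, P, Q, t) ∧
  Nat.Coprime t.2 (W0 p) ∧ Squarefree t.2 ∧ (∀ l : ℕ, l.Prime → l ∣ t.2 → l % 4 = 1) ∧
  Nat.Coprime G t.2 ∧ IsCoprime t.1 (G : ℤ)

/-- role 1: the `(D, X)` in the critical window -/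
def S1 (p : Prm) (N M G P Q : ℕ) : Finset (ℤ × ℕ) := (dbox N).filter (fun t =>
  DX p M G P Q t ∧ 2 * (M : ℤ) < t.1 * P ∧ t.1 * P ≤ 3 * (M : ℤ) ∧
  (M : ℤ) ^ 2 + 1 ≤ D2 (M, G, P, Q, t) * Q * M ∧
  D2 (M, G, P, Q, t) * Q * M < 2 * ((M : ℤ) ^ 2 + 1) ∧
  (∀ l ∈ PP p N, (l : ℤ) ∣ t.1 → ¬ l ∣ Q) ∧ (∀ l ∈ PP p N, l ∣ t.2 → ¬ l ∣ M ^ 2 + 1) ∧
  (sm p N t.2 : ℝ) ≤ zz p N ^ p.K)

/-- general: the `(D, X)` in a wide window -/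
def S2 (p : Prm) (N M G P Q : ℕ) : Finset (ℤ × ℕ) := (dbox N).filter (fun t =>
  DX p M G P Q t ∧ (M : ℤ) ≤ 3 * (|t.1| * P) ∧ |t.1| * P ≤ 10 * (M : ℤ) ∧
  |D2 (M, G, P, Q, t)| * Q * M ≤ 10 * ((M : ℤ) ^ 2 + 1) ∧
  t.2 ≤ 100 * G ∧ G ≤ 100 * t.2 ∧ (∀ l ∈ PP p N, (l : ℤ) ∣ t.1 → ¬ l ∣ Q) ∧
  (sm p N t.2 : ℝ) ≤ zz p N ^ (4 * p.K))

/-- the expected size `e^{-τ S0} / W₀²` -/
def kp (p : Prm) (N : ℕ) (τ : ℝ) : ℝ := Real.exp (-(τ * S0 p N)) / (W0 p : ℝ) ^ 2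

/-- **PHI** (role 1, all weights `1/6`): asymptotic formula with an explicit constant -/
def SpecPHI : Prop :=
  ∀ ε : ℝ, 0 < ε → ∃ δ : ℝ, 0 < δ ∧ Good (fun p => ∀ᶠ N : ℕ in atTop, ∀ M G P Q : ℕ,
    Adm p N M G P Q → ∑ l ∈ (PP p N).filter (fun l => l ∣ M ^ 2 + 1), 1 / (l : ℝ) ≤ δ →
    |∑ t ∈ S1 p N M G P Q, (t.2 : ℝ) / G * vh p N (1 / 6) (1 / 6) (1 / 6) (M, G, P, Q, t) -
        Real.pi / 2 * kp p N (5 / 2)| ≤ ε * kp p N (5 / 2))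

/-- the right side of PHU -/
def kpU (p : Prm) (N M : ℕ) (τ C : ℝ) : ℝ :=
  C * kp p N τ * ∏ l ∈ (PP p N).filter (fun l => l ∣ M ^ 2 + 1), (1 + C / l)

/-- **PHU** (all weights): upper bounds, also with a condition at a sieving prime `q`;
`C` depends only on the weights -/
def SpecPHU : Prop :=
  ∀ al bT bR : ℝ, 0 < al → al ≤ 1 → 0 < bT → bT ≤ 1 → 0 < bR → bR ≤ 1 →
  ∃ C : ℝ, 0 < C ∧ Good (fun p => ∀ᶠ N : ℕ in atTop, ∀ M G P Q : ℕ, Adm p N M G P Q →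
    (∑ t ∈ S2 p N M G P Q, vh p N al bT bR (M, G, P, Q, t) ≤ kpU p N M (3 - al - bT - bR) C) ∧
    ∀ q ∈ PP p N,
      (∑ t ∈ (S2 p N M G P Q).filter (fun t => ¬ q ∣ M ^ 2 + 1 ∧
          ((q : ℤ) ^ 2 ∣ F1 (M, G, P, Q, t) ∨ (q : ℤ) ^ 2 ∣ F2 (M, G, P, Q, t) ∨
            (¬ q ∣ t.2 ∧ (q : ℤ) ∣ F1 (M, G, P, Q, t) ∧ (q : ℤ) ∣ F2 (M, G, P, Q, t)))),
        vh p N al bT bR (M, G, P, Q, t) ≤ kpU p N M (3 - al - bT - bR) C / (q : ℝ) ^ 2) ∧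
      (∑ t ∈ (S2 p N M G P Q).filter (fun t =>
          (q : ℤ) ∣ t.2 * F1 (M, G, P, Q, t) * F2 (M, G, P, Q, t)),
        vh p N al bT bR (M, G, P, Q, t) ≤ kpU p N M (3 - al - bT - bR) C / q))

/-! ## G: coincidences -/

/-- the nongeneric pairs of relations with `P / P'` small -/
def NGp (p : Prm) (N : ℕ) : Finset (Rl × Rl) := (RG p N ×ˢ RG p N).filter (fun t =>
  rM t.1 = rM t.2 ∧ t.1 ≠ t.2 ∧ ep p (rP t.1) = ep p (rP t.2) ∧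
  (∃ n n' : ℕ, 0 < n ∧ 0 < n' ∧ (n : ℝ) ≤ Y2 p N * zz p N ^ (4 * p.K) ∧
    (n' : ℝ) ≤ Y2 p N * zz p N ^ (4 * p.K) ∧ rP t.1 * n = rP t.2 * n') ∧
  ∃ l : ℕ, l.Prime ∧ zz p N ≤ (l : ℝ) ∧
    ((l ∣ rX t.1 ∧ l ∣ rX t.2 * rG t.2) ∨ (l ∣ rX t.2 ∧ l ∣ rX t.1 * rG t.1)))

/-- **NG** -/
def SpecNG : Prop :=
  Good (fun p => ∀ᶠ N : ℕ in atTop, ((NGp p N).card : ℝ) ≤ N * zz p N ^ (-(1 / 2) : ℝ))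

/-! ## J: the number of critical divisors -/

/-- **NU** -/
def SpecNU : Prop :=
  ∀ ε : ℝ, 0 < ε → Good (fun p => ∃ K' : ℝ, 0 < K' ∧ ∀ᶠ N : ℕ in atTop,
    (((Gam N 1 2).filter (fun x => K' * 2 ^ om p N ((mm x).natAbs ^ 2 + 1) / Real.log (zz p N) <
      (nu (mm x).natAbs : ℝ))).card : ℝ) ≤ ε * ((Gam N 1 2).card : ℝ))

/-! ## H: first and second moment in the critical window -/

/-- **AA** -/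
def SpecAA : Prop :=
  ∀ ε e₁ : ℝ, 0 < ε → 0 < e₁ → Good (fun p => ∃ C : ℝ, 0 < C ∧ ∀ᶠ N : ℕ in atTop,
    ∃ Zf : VV → Rl → ℝ, (∀ x r, 0 ≤ Zf x r) ∧ (∀ x r, Zf x r ≤ C * WC p N r) ∧
      (∀ x r, Zf x r ≠ 0 → x ∈ Gam N 1 2 ∧ r ∈ RP p e₁ N ∧ (rM r : ℤ) = mm x) ∧
      (1 - ε) * ((Gam N 1 2).card : ℝ) ≤ ∑ x ∈ Gam N 1 2, ∑ r ∈ RP p e₁ N, Zf x r ∧
      ∑ x ∈ Gam N 1 2, (∑ r ∈ RP p e₁ N, Zf x r) ^ 2 ≤ (1 + ε) * ((Gam N 1 2).card : ℝ))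

/-! ## I: the bound for the other vertices -/

/-- **BB** -/
def SpecBB : Prop :=
  ∀ c : Wts, c.ok → Good (fun p => ∃ C : ℝ, 0 < C ∧ ∀ᶠ N : ℕ in atTop,
    ∑ M ∈ range (8 * N + 1),
      (∑ r ∈ (RG p N).filter (fun r => rM r = M ∧ UW p N c r ≤ 1), UW p N c r) ^ 2 ≤ C * N)

/-! ## A: relations -/

/-- weights at `M₂`: `X, R ↦ 1/6`, `Q ↦ 2/3`; `G ↦ 2/3`, `T ↦ 1/6`, `P ↦ 2/3` -/
def w2 : Wts := ⟨1 / 6, 1 / 6, 2 / 3, 2 / 3, 1 / 6, 2 / 3⟩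
/-- weights at `M₃`: `G ↦ 2/3`, `R, T ↦ 1/6`; `X ↦ 1/6`, `Q, P ↦ 2/3` -/
def w3 : Wts := ⟨2 / 3, 1 / 6, 1 / 6, 1 / 6, 2 / 3, 2 / 3⟩
/-- weights at `M₄`: `X ↦ 1/6`, `P ↦ 2/3`, `T ↦ 1/6`; `G ↦ 2/3`, `Q ↦ 2/3`, `R ↦ 1/6` -/
def w4 : Wts := ⟨1 / 6, 2 / 3, 1 / 6, 2 / 3, 2 / 3, 1 / 6⟩

/-- **A1**: the relation of the signs -/
def SpecA1 : Prop :=
  ∀ e₁ : ℝ, Good (fun p => ∀ᶠ N : ℕ in atTop, ∀ r ∈ RP p e₁ N,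
    lam (rM r ^ 2 + 1) * lam ((M2 r).natAbs ^ 2 + 1) * lam ((M3 r).natAbs ^ 2 + 1) *
      lam ((M4 r).natAbs ^ 2 + 1) = 1)

/-- **A2**: the roles -/
def SpecA2 : Prop :=
  ∀ e₁ : ℝ, 0 < e₁ → Good (fun p => ∀ᶠ N : ℕ in atTop, RP p e₁ N ⊆ RG p N ∧
    ∀ ρ ∈ [role2, role3, role4], Set.InjOn ρ (RP p e₁ N : Set Rl) ∧
      ∀ r ∈ RP p e₁ N, ρ r ∈ RG p N)

/-- **A3**: the weights -/
def SpecA3 : Prop :=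
  ∃ e₀ : ℝ, 0 < e₀ ∧ ∀ e₁ : ℝ, 0 < e₁ → e₁ ≤ e₀ → Good (fun p => ∃ C : ℝ, 0 < C ∧
    ∀ᶠ N : ℕ in atTop, ∀ r ∈ RP p e₁ N,
      WC p N r ≤ Real.exp (-(S0 p N / 20)) ∧
      ∀ t ∈ [(role2, w2), (role3, w3), (role4, w4)], UW p N t.2 (t.1 r) ≤ 1 ∧
        WC p N r * 2 ^ om p N (rM r ^ 2 + 1) / Real.log (zz p N) ≤ C * UW p N t.2 (t.1 r))

/-! ## K: the input of the library and the theorem -/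

/-- **SGN** -/
def SpecSGN : Prop :=
  Tendsto (fun N : ℕ => ((∑ x ∈ Gam N 1 2, lam ((mm x).natAbs ^ 2 + 1) : ℤ) : ℝ) / N) atTop (𝓝 0)

/-- **Theorem T1** -/
def SpecT1 : Prop :=
  ∃ c : ℝ, 0 < c ∧ ∀ᶠ N : ℕ in atTop,
    c * N ≤ (((Icc 1 N).filter (fun n => lam (n ^ 2 + 1) = 1)).card : ℝ) ∧
    c * N ≤ (((Icc 1 N).filter (fun n => lam (n ^ 2 + 1) = -1)).card : ℝ)

end

end Pool.Agent.Lib.MP391708.T4
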