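import Pool.Agent.Lib.MP_391708_nt.T4.Spec

/-!
# Group F, part 1: the moments of `T_u T_v` and of the bounded products

Input: `SpecEQ`, `SpecCNT`, local means `mean l [l ∣ d] = mean l [l ∣ e] = 2/(l+1)`, Mertens modulo 4
(`T1/FuS.lean`).
-/

set_option autoImplicit false

namespace Pool.Agent.Lib.MP391708.T4

open Finset Filter Topology
open Pool.Agent.Lib.MP391708.Eqd (V cross dot nsq pairs)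
open scoped Classical

noncomputable section

/-- the primes `u` -/
def Uu (p : Prm) (N : ℕ) : Finset ℕ :=
  (range (⌊Y2 p N⌋₊ + 1)).filter (fun u => u.Prime ∧ u % 4 = 1 ∧ Y1 p N ≤ (u : ℝ) ∧
    (u : ℝ) ≤ Y2 p N)

/-- the primes `v` -/
def Vv (p : Prm) (N : ℕ) : Finset ℕ :=
  (range (⌊Y4 p N⌋₊ + 1)).filter (fun u => u.Prime ∧ u % 4 = 1 ∧ Y3 p N ≤ (u : ℝ) ∧
    (u : ℝ) ≤ Y4 p N)

def Su (p : Prm) (N : ℕ) : ℝ := ∑ u ∈ Uu p N, 2 / (u : ℝ)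
def Sv (p : Prm) (N : ℕ) : ℝ := ∑ v ∈ Vv p N, 2 / (v : ℝ)

/-- `T_u = #{u ∣ d} / S_u` -/
def Tu (p : Prm) (N : ℕ) (x : VV) : ℝ :=
  (∑ u ∈ Uu p N, if (u : ℤ) ∣ dd x then (1 : ℝ) else 0) / Su p N
/-- `T_v = #{v ∣ e} / S_v` -/
def Tv (p : Prm) (N : ℕ) (x : VV) : ℝ :=
  (∑ v ∈ Vv p N, if (v : ℤ) ∣ ee x then (1 : ℝ) else 0) / Sv p N

/-- **TM**. For `S ⊆ U`, `T ⊆ V` with at most `j` elements let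
`B i i' S T = ∑_x n_u^i n_v^i' 1[S ∣ d] 1[T ∣ e]`, `n_u = #{u ∣ d}`.  By `SpecEQ` modulo
`∏ S ∏ T ≤ (Y2 Y4)^j ≤ N^c`: `B 0 0 S T ≤ #Γ a(S) a(T) + N^(1-c)`, `a(S) = ∏_{S} 2/(u+1)`.
`n_u 1[S ∣ d] = #S 1[S ∣ d] + ∑_{u ∉ S} 1[S ∪ u ∣ d]`, hence by induction on `i`
`B i i' S T ≤ #Γ a(S) a(T) ∏_{h<i} (A + #S + h) ∏_{h<i'} (B + #T + h) + (#U + j)^i (#V + j)^i' N^(1-c)`,
`A = ∑_U 2/(u+1) ≤ Su`.  With `S = T = ∅`, `i = i' = j`: the mean of `(T_u T_v)^j` is at most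
`∏_{h<j} (1 + h/Su)(1 + h/Sv) + o(1)`, and `Su, Sv ≥ log r - C ≥ C_j/ε` (Mertens).  First moment: the
same with equality, `∑_{u,v} (2/(u+1)) (2/(v+1)) ≥ (1 - 1/Y1)^2 Su Sv`. -/
def SpecTM : Prop :=
  ∀ (ε : ℝ) (j : ℕ), 0 < ε → Good (fun p => ∀ᶠ N : ℕ in atTop,
    1 / ε ≤ Su p N ∧ 1 / ε ≤ Sv p N ∧
    (1 - ε) * ((Gam N 1 2).card : ℝ) ≤ ∑ x ∈ Gam N 1 2, Tu p N x * Tv p N x ∧
    ∑ x ∈ Gam N 1 2, (Tu p N x * Tv p N x) ^ j ≤ (1 + ε) * ((Gam N 1 2).card : ℝ))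

/-- **PM**. `(1 + C/l)^j ≤ 1 + C₁/l`, `C₁ = (1 + C)^j`.  Let `n = M² + 1 ≤ 5 N²`, `L = log N`.
Primes `l ∣ n` with `l > L`: at most `log n / log 2 ≤ 4 L` of them, so `∑ 1/l ≤ 4`.  Primes
`√L < l ≤ L`: `∑ 1/l ≤ C₂` (Mertens, `S1_log`).  So these contribute a factor at most
`exp (C₁ (4 + C₂))`.  Primes `l ≤ √L` of `PP`: `∏_{l ∣ n} (1 + C₁/l) = ∑_{δ ∣ n} h(δ)` over the
squarefree `δ` composed of them, `h(δ) = C₁^ω / δ`; `δ ≤ √L^√L ≤ N^c`; by `SpecEQ` and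
`mean δ [δ ∣ n] ≤ 4^ω/δ` the sum over `Γ` is at most
`∑_δ h(δ) (4^ω/δ #Γ + N^(1-c)) ≤ #Γ ∏ (1 + 4 C₁/l²) + N^(1-c) ∏ (1 + C₁/l) ≤ C' #Γ`. -/
def SpecPM : Prop :=
  ∀ (C : ℝ) (j : ℕ), 0 < C → ∃ C' : ℝ, 0 < C' ∧ Good (fun p => ∀ᶠ N : ℕ in atTop,
    ∑ x ∈ Gam N 1 2, (∏ l ∈ (PP p N).filter (fun l => l ∣ (mm x).natAbs ^ 2 + 1),
      (1 + C / l)) ^ j ≤ C' * ((Gam N 1 2).card : ℝ))

/-- **PMS**: the same with the weight `T_u T_v` (Cauchy-Schwarz from TM and PM) -/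
def SpecPMT : Prop :=
  ∀ (C : ℝ) (i j : ℕ), 0 < C → ∃ C' : ℝ, 0 < C' ∧ Good (fun p => ∀ᶠ N : ℕ in atTop,
    ∑ x ∈ Gam N 1 2, (Tu p N x * Tv p N x) ^ i *
      (∏ l ∈ (PP p N).filter (fun l => l ∣ (mm x).natAbs ^ 2 + 1), (1 + C / l)) ^ j ≤
      C' * ((Gam N 1 2).card : ℝ))

end

end Pool.Agent.Lib.MP391708.T4
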