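import Pool.Agent.Lib.MP_391708_nt.T4.Spec
import Pool.Agent.Lib.MP_391708_nt.T1.Cmp
import Pool.Agent.Lib.MP_391708_nt.T1.GmEq

/-!
# Bridge between the language of `T1` (group D) and the interface `T4/Defs`: classes and regions
-/

set_option autoImplicit false

namespace Pool.Agent.Lib.MP391708.T4

open Finset Filter Topology
open Pool.Agent.Lib.MP391708.Eqd (V cross dot nsq pairs res)
open scoped Classical

lemma cg_iff {q : ℕ} {x y : VV} : cg q x y ↔ res q x = res q y := by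
  unfold cg res
  simp only [Prod.mk.injEq, ZMod.intCast_eq_intCast_iff_dvd_sub]
  constructor
  · rintro ⟨h1, h2, h3, h4⟩
    exact ⟨⟨(dvd_sub_comm).1 h1, (dvd_sub_comm).1 h2⟩, (dvd_sub_comm).1 h3, (dvd_sub_comm).1 h4⟩
  · rintro ⟨⟨h1, h2⟩, h3, h4⟩
    exact ⟨(dvd_sub_comm).1 h1, (dvd_sub_comm).1 h2, (dvd_sub_comm).1 h3, (dvd_sub_comm).1 h4⟩

lemma per_iff {q : ℕ} {F : VV → ℝ} : Per q F ↔ T1.Per q F := by
  unfold Per T1.Per
  constructor
  · intro h x y hxy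
    exact h x y (cg_iff.2 hxy)
  · intro h x y hxy
    exact h x y (cg_iff.1 hxy)

lemma sum_cls (q : ℕ) [NeZero q] (F : VV → ℝ) :
    ∑ x ∈ cls q, F x = ∑ r ∈ T1.sl q, F (T1.lift q r) := by
  symm
  have hq : (0 : ℤ) < q := by exact_mod_cast Nat.pos_of_ne_zero (NeZero.ne q)
  refine Finset.sum_nbij' (T1.lift q) (res q) ?_ ?_ ?_ ?_ ?_
  · intro r hr
    rw [T1.mem_sl] at hr
    have hv : ∀ a : ZMod q, (0 : ℤ) ≤ (a.val : ℤ) ∧ (a.val : ℤ) < q := fun a =>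
      ⟨Int.natCast_nonneg _, by exact_mod_cast ZMod.val_lt a⟩
    unfold cls
    rw [Finset.mem_filter, Finset.mem_product, Finset.mem_product, Finset.mem_product,
      Finset.mem_Ico, Finset.mem_Ico, Finset.mem_Ico, Finset.mem_Ico]
    refine ⟨⟨⟨hv _, hv _⟩, hv _, hv _⟩, ?_⟩
    rw [← ZMod.intCast_zmod_eq_zero_iff_dvd]
    simp only [T1.lift, Pool.Agent.Lib.MP391708.Eqd.cross]
    push_cast
    simp only [ZMod.natCast_zmod_val]
    rw [hr]; ring
  · intro x hx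
    unfold cls at hx
    rw [Finset.mem_filter] at hx
    rw [T1.mem_sl]
    have h := hx.2
    rw [← ZMod.intCast_zmod_eq_zero_iff_dvd] at h
    simp only [Pool.Agent.Lib.MP391708.Eqd.cross] at h
    push_cast at h
    simp only [res]
    linear_combination h
  · intro r _
    exact T1.res_lift q r
  · intro x hx
    unfold cls at hx
    rw [Finset.mem_filter, Finset.mem_product, Finset.mem_product, Finset.mem_product,
      Finset.mem_Ico, Finset.mem_Ico, Finset.mem_Ico, Finset.mem_Ico] at hx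
    obtain ⟨⟨⟨h1, h2⟩, h3, h4⟩, -⟩ := hx
    have key : ∀ a : ℤ, 0 ≤ a ∧ a < q → (((a : ZMod q).val : ℤ)) = a := by
      intro a ha
      rw [ZMod.val_intCast, Int.emod_eq_of_lt ha.1 ha.2]
    simp only [T1.lift, res, key _ h1, key _ h2, key _ h3, key _ h4]
  · intro r _
    rfl

lemma card_cls (q : ℕ) [NeZero q] : (cls q).card = (T1.sl q).card := by
  have h := sum_cls q (fun _ => 1)
  simp only [Finset.sum_const, nsmul_eq_mul, mul_one] at h
  exact_mod_cast h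

lemma mean_eq {q : ℕ} (hq : 0 < q) (F : VV → ℝ) : mean q F = T1.mn q F := by
  have : NeZero q := ⟨hq.ne'⟩
  unfold mean
  rw [T1.mn_def, sum_cls, card_cls]

lemma mem_Gam {N : ℕ} {al be : ℝ} {x : VV} : x ∈ Gam N al be ↔
    cross x.1 x.2 = -1 ∧ (N : ℤ) < mm x ∧ mm x ≤ 2 * N ∧
    al * (mm x : ℝ) < (dd x : ℝ) ∧ (dd x : ℝ) ≤ be * (mm x : ℝ) := by
  unfold Gam
  rw [Finset.mem_filter]
  constructor
  · rintro ⟨h1, h2⟩
    rw [pairs, Finset.mem_filter] at h1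
    exact ⟨by simpa using h1.2, h2⟩
  · rintro ⟨h1, h2⟩
    refine ⟨T1.mem_pairs_of h1 ?_, h2⟩
    have h3 := h2.1
    have h4 := h2.2.1
    unfold mm at h3 h4
    push_cast
    have h5 : (0 : ℤ) ≤ N := Int.natCast_nonneg N
    nlinarith

lemma Gam_eq (N : ℕ) (al be : ℝ) : Gam N al be = T1.Gm N al be := by
  ext x
  rw [mem_Gam, T1.mem_Gm]
  rfl

/-- a version of `SpecEQ` with explicit error -/
theorem specEQ (hEq : T1.SpecEquid) : SpecEQ := by
  obtain ⟨K, hK, h⟩ := T1.specGmEq hEq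
  refine ⟨1 / 2400, by norm_num, ?_⟩
  have h1 : ∀ᶠ N : ℕ in atTop, K ≤ (N : ℝ) ^ (1 / 100 : ℝ) ∧ 1 ≤ N :=
    ((((tendsto_rpow_atTop (show (0 : ℝ) < 1 / 100 by norm_num)).comp
      tendsto_natCast_atTop_atTop).eventually_ge_atTop K).and (eventually_ge_atTop 1))
  filter_upwards [h1] with N hN m F α β hm hmN hF hF0 hF1 hα hαβ hβ
  have hNR : (1 : ℝ) ≤ N := by exact_mod_cast hN.2
  have hN0 : (0 : ℝ) < N := by linarith
  have h2 : (N : ℝ) ^ (-(1 / 2) : ℝ) ≤ α :=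
    (Real.rpow_le_rpow_of_exponent_le hNR (by norm_num)).trans hα
  have h3 := h N hN.2 α β h2 hαβ hβ m hm F (per_iff.1 hF) (fun x => by
    rw [abs_of_nonneg (hF0 x)]; exact hF1 x)
  rw [Gam_eq, mean_eq hm]
  refine h3.trans ?_
  have h4 : (m : ℝ) ^ 12 ≤ (N : ℝ) ^ (1 / 200 : ℝ) := by
    calc (m : ℝ) ^ 12 ≤ ((N : ℝ) ^ (1 / 2400 : ℝ)) ^ 12 :=
          pow_le_pow_left₀ (Nat.cast_nonneg _) hmN _
      _ = (N : ℝ) ^ (1 / 200 : ℝ) := by
          rw [← Real.rpow_natCast, ← Real.rpow_mul hN0.le]; norm_num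
  calc K * (m : ℝ) ^ 12 * (N : ℝ) ^ (49 / 50 : ℝ) ≤
      (N : ℝ) ^ (1 / 100 : ℝ) * (N : ℝ) ^ (1 / 200 : ℝ) * (N : ℝ) ^ (49 / 50 : ℝ) :=
        mul_le_mul_of_nonneg_right (mul_le_mul hN.1 h4 (by positivity) (by positivity))
          (by positivity)
    _ = (N : ℝ) ^ (199 / 200 : ℝ) := by
        rw [← Real.rpow_add hN0, ← Real.rpow_add hN0]; norm_num
    _ ≤ (N : ℝ) ^ (1 - 1 / 2400 : ℝ) := Real.rpow_le_rpow_of_exponent_le hNR (by norm_num)

end Pool.Agent.Lib.MP391708.T4
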