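import Pool.Agent.Lib.MP_391708_nt.T4.SpecH

/-!
# Group H: basic facts about the parameters, `sm`, and the data

`Bas p N` collects the inequalities between the parameters that are used everywhere.
-/

set_option autoImplicit false
set_option linter.constructorNameAsVariable false

namespace Pool.Agent.Lib.MP391708.T4.H

open Finset Filter Topology
open Pool.Agent.Lib.MP391708.Eqd (V cross dot nsq pairs)
open scoped Classical

/-! ## Parameters -/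

theorem _root_.Pool.Agent.Lib.MP391708.T4.Good.mono' {φ ψ : Prm → Prop} (h : Good φ)
    (h' : ∀ p, φ p → ψ p) : Good ψ := by
  obtain ⟨E₀, h⟩ := h
  refine ⟨E₀, fun E hE => ?_⟩
  obtain ⟨K₀, h⟩ := h E hE
  refine ⟨K₀, fun K hK => ?_⟩
  obtain ⟨r₀, h⟩ := h K hK
  refine ⟨r₀, fun r hr => ?_⟩
  obtain ⟨k₀, h⟩ := h r hr
  refine ⟨k₀, fun k hk => ?_⟩
  obtain ⟨ζ₀, hζ₀, h⟩ := h k hk
  exact ⟨ζ₀, hζ₀, fun ζ h0 hζ => h' _ (h ζ h0 hζ)⟩

/-- basic inequalities -/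
structure Bas (p : Prm) (N : ℕ) : Prop where
  K1 : 1 ≤ p.K
  r1 : 1 ≤ p.r
  k1 : 1 ≤ p.k
  N1 : 1 ≤ N
  zE : (p.E : ℝ) + 2 ≤ zz p N

theorem good_bas : Good (fun p => ∀ᶠ N : ℕ in atTop, Bas p N) := by
  refine ⟨0, fun E _ => ⟨1, fun K hK => ⟨1, fun r hr => ⟨1, fun k hk => ⟨1, one_pos,
    fun ζ hζ _ => ?_⟩⟩⟩⟩⟩
  have h1 : Tendsto (fun N : ℕ => (N : ℝ) ^ ζ) atTop atTop :=
    (tendsto_rpow_atTop hζ).comp tendsto_natCast_atTop_atTop
  filter_upwards [h1.eventually_ge_atTop ((E : ℝ) + 2), eventually_ge_atTop 1] with N h h'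
  exact ⟨hK, hr, hk, h', h⟩

section
variable {p : Prm} {N : ℕ}

theorem Bas.z2 (h : Bas p N) : 2 ≤ zz p N := by
  have := h.zE
  have : (0 : ℝ) ≤ p.E := Nat.cast_nonneg _
  linarith

theorem Bas.z1 (h : Bas p N) : 1 ≤ zz p N := by linarith [h.z2]

theorem Bas.z0 (h : Bas p N) : 0 < zz p N := by linarith [h.z2]

theorem Bas.zpow_le (h : Bas p N) {m n : ℕ} (hmn : m ≤ n) : zz p N ^ m ≤ zz p N ^ n :=
  pow_le_pow_right₀ h.z1 hmn

theorem Bas.zpow_lt (h : Bas p N) {m n : ℕ} (hmn : m < n) : zz p N ^ m < zz p N ^ n :=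
  pow_lt_pow_right₀ (by linarith [h.z2]) hmn

theorem Bas.z_le_Y1 (h : Bas p N) : zz p N ≤ Y1 p N := by
  have := h.zpow_le h.k1
  rwa [pow_one] at this

theorem Bas.rk1 (h : Bas p N) : 1 ≤ p.r * p.k := Nat.mul_pos h.r1 h.k1

theorem Bas.Y2_lt_Y3 (h : Bas p N) : Y2 p N < Y3 p N := by
  refine h.zpow_lt ?_
  have := h.rk1
  nlinarith

theorem Bas.Y1_le_Y3 (h : Bas p N) : Y1 p N ≤ Y3 p N := by
  refine h.zpow_le ?_
  have := h.r1
  nlinarith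

theorem Bas.z_le_Y3 (h : Bas p N) : zz p N ≤ Y3 p N := h.z_le_Y1.trans h.Y1_le_Y3

theorem Bas.Y1_pos (h : Bas p N) : 0 < Y1 p N := by
  have := h.z0
  unfold Y1
  positivity

theorem Bas.Y2_pos (h : Bas p N) : 0 < Y2 p N := by
  have := h.z0
  unfold Y2
  positivity

theorem Bas.Y3_pos (h : Bas p N) : 0 < Y3 p N := by
  have := h.z0
  unfold Y3
  positivity

theorem Bas.Y4_pos (h : Bas p N) : 0 < Y4 p N := by
  have := h.z0
  unfold Y4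
  positivity

theorem Bas.zK_le_ML (h : Bas p N) : zz p N ^ p.K ≤ ML p N := by
  refine h.zpow_le ?_
  have h1 : 1 ≤ (p.r + 1) ^ 2 * (p.k + 1) := Nat.mul_pos (by positivity) (by positivity)
  nlinarith [Nat.mul_le_mul_left (1000 * (p.K + 1)) h1]

/-! ## The sieving primes -/

theorem mem_PP {l : ℕ} : l ∈ PP p N ↔ (l : ℝ) < zz p N ∧ l.Prime ∧ l % 4 = 1 ∧ p.E < l := by
  unfold PP
  rw [mem_filter, mem_range, Nat.lt_ceil]

theorem prime_of_mem_PP {l : ℕ} (h : l ∈ PP p N) : l.Prime := (mem_PP.1 h).2.1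

theorem lt_of_mem_PP {l : ℕ} (h : l ∈ PP p N) : (l : ℝ) < zz p N := (mem_PP.1 h).1

theorem E_lt_of_mem_PP {l : ℕ} (h : l ∈ PP p N) : p.E < l := (mem_PP.1 h).2.2.2

theorem mem_Uu {u : ℕ} : u ∈ Uu p N ↔ Y1 p N ≤ u ∧ (u : ℝ) ≤ Y2 p N ∧ u.Prime ∧ u % 4 = 1 := by
  unfold Uu
  rw [mem_filter, mem_range]
  constructor
  · rintro ⟨-, h3, h4, h1, h2⟩
    exact ⟨h1, h2, h3, h4⟩
  · rintro ⟨h1, h2, h3, h4⟩
    exact ⟨Nat.lt_succ_of_le (Nat.le_floor h2), h3, h4, h1, h2⟩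

theorem mem_Vv {v : ℕ} : v ∈ Vv p N ↔ Y3 p N ≤ v ∧ (v : ℝ) ≤ Y4 p N ∧ v.Prime ∧ v % 4 = 1 := by
  unfold Vv
  rw [mem_filter, mem_range]
  constructor
  · rintro ⟨-, h3, h4, h1, h2⟩
    exact ⟨h1, h2, h3, h4⟩
  · rintro ⟨h1, h2, h3, h4⟩
    exact ⟨Nat.lt_succ_of_le (Nat.le_floor h2), h3, h4, h1, h2⟩

/-! ## The sieving part -/

theorem sm_pos (p : Prm) (N n : ℕ) : 0 < sm p N n := by
  unfold sm
  exact prod_pos fun l hl => pow_pos (prime_of_mem_PP hl).pos _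

theorem sm_mul {a b : ℕ} (ha : a ≠ 0) (hb : b ≠ 0) :
    sm p N (a * b) = sm p N a * sm p N b := by
  unfold sm
  rw [← prod_mul_distrib]
  refine prod_congr rfl fun l _ => ?_
  rw [Nat.factorization_mul ha hb, Finsupp.add_apply, pow_add]

theorem sm_one_of {n : ℕ} (h : ∀ l ∈ PP p N, ¬ l ∣ n) : sm p N n = 1 := by
  unfold sm
  refine prod_eq_one fun l hl => ?_
  rw [Nat.factorization_eq_zero_of_not_dvd (h l hl), pow_zero]

theorem sm_self {n : ℕ} (hn : n ≠ 0) (h : ∀ l : ℕ, l.Prime → l ∣ n → l ∈ PP p N) :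
    sm p N n = n := by
  unfold sm
  have h1 : n.primeFactors ⊆ PP p N := fun l hl =>
    h l (Nat.prime_of_mem_primeFactors hl) (Nat.dvd_of_mem_primeFactors hl)
  rw [← prod_subset h1 (f := fun l => l ^ n.factorization l)]
  · exact Nat.prod_factorization_pow_eq_self hn
  · intro l _ hl
    rw [← Nat.support_factorization, Finsupp.mem_support_iff, not_not] at hl
    rw [hl, pow_zero]

theorem sm_dvd {n : ℕ} (hn : n ≠ 0) : sm p N n ∣ n := by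
  conv_rhs => rw [← Nat.prod_factorization_pow_eq_self hn]
  unfold sm
  rw [Finsupp.prod, Nat.support_factorization]
  have h1 : ∏ l ∈ PP p N, l ^ n.factorization l =
      ∏ l ∈ (PP p N).filter (fun l => l ∈ n.primeFactors), l ^ n.factorization l := by
    rw [prod_filter]
    refine prod_congr rfl fun l _ => ?_
    split_ifs with h
    · rfl
    · rw [← Nat.support_factorization, Finsupp.mem_support_iff, not_not] at h
      rw [h, pow_zero]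
  rw [h1]
  exact prod_dvd_prod_of_subset _ _ _ fun l hl => (mem_filter.1 hl).2

theorem om_eq_card {n : ℕ} {s : ℕ} (hs : s ≠ 0) (h : ∀ l : ℕ, l.Prime → l ∣ s → l ∈ PP p N)
    (h' : ∀ l ∈ PP p N, l ∣ n ↔ l ∣ s) : om p N n = s.primeFactors.card := by
  unfold om
  congr 1
  ext l
  rw [mem_filter, Nat.mem_primeFactors]
  constructor
  · rintro ⟨h1, h2⟩
    exact ⟨prime_of_mem_PP h1, (h' l h1).1 h2, hs⟩
  · rintro ⟨h1, h2, -⟩
    exact ⟨h l h1 h2, (h' l (h l h1 h2)).2 h2⟩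

end

/-! ## The base set -/

theorem mem_Gam {N : ℕ} {α β : ℝ} {x : VV} (h : x ∈ Gam N α β) :
    cross x.1 x.2 = -1 ∧ (N : ℤ) < mm x ∧ mm x ≤ 2 * N ∧ α * (mm x : ℝ) < (dd x : ℝ) ∧
      (dd x : ℝ) ≤ β * (mm x : ℝ) := by
  unfold Gam at h
  rw [mem_filter, Eqd.mem_pairs] at h
  exact ⟨by simpa using h.1.2, h.2.1, h.2.2.1, h.2.2.2.1, h.2.2.2.2⟩

theorem dd_mul_ee {x : VV} (h : cross x.1 x.2 = -1) : dd x * ee x = mm x ^ 2 + 1 := by
  unfold dd ee mm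
  rw [Eqd.nsq_mul, h]
  norm_num

theorem dd_pos {x : VV} (h : cross x.1 x.2 = -1) : 0 < dd x :=
  (Eqd.nsq_pos_of_cross one_pos (by simpa using h)).1

theorem ee_pos {x : VV} (h : cross x.1 x.2 = -1) : 0 < ee x :=
  (Eqd.nsq_pos_of_cross one_pos (by simpa using h)).2

theorem Md_cast {N : ℕ} {α β : ℝ} {x : VV} (h : x ∈ Gam N α β) : ((Md x : ℕ) : ℤ) = mm x := by
  unfold Md
  have := (mem_Gam h).2.1
  exact Int.natAbs_of_nonneg (by omega)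

theorem dd_cast {N : ℕ} {α β : ℝ} {x : VV} (h : x ∈ Gam N α β) :
    (((dd x).natAbs : ℕ) : ℤ) = dd x := Int.natAbs_of_nonneg (dd_pos (mem_Gam h).1).le

theorem ee_cast {N : ℕ} {α β : ℝ} {x : VV} (h : x ∈ Gam N α β) :
    (((ee x).natAbs : ℕ) : ℤ) = ee x := Int.natAbs_of_nonneg (ee_pos (mem_Gam h).1).le

theorem abs_mul_abs {N : ℕ} {α β : ℝ} {x : VV} (h : x ∈ Gam N α β) :
    (dd x).natAbs * (ee x).natAbs = Md x ^ 2 + 1 := by
  have h1 := dd_mul_ee (mem_Gam h).1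
  rw [← dd_cast h, ← ee_cast h, ← Md_cast h] at h1
  exact_mod_cast h1

theorem dvd_dd_iff {x : VV} {l : ℕ} : (l : ℤ) ∣ dd x ↔ l ∣ (dd x).natAbs := Int.natCast_dvd

theorem dvd_ee_iff {x : VV} {l : ℕ} : (l : ℤ) ∣ ee x ↔ l ∣ (ee x).natAbs := Int.natCast_dvd

theorem sq_dvd_dd_iff {x : VV} {l : ℕ} : (l : ℤ) ^ 2 ∣ dd x ↔ l ^ 2 ∣ (dd x).natAbs := by
  rw [← Int.natCast_dvd]
  push_cast
  rfl

theorem sq_dvd_ee_iff {x : VV} {l : ℕ} : (l : ℤ) ^ 2 ∣ ee x ↔ l ^ 2 ∣ (ee x).natAbs := by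
  rw [← Int.natCast_dvd]
  push_cast
  rfl

end Pool.Agent.Lib.MP391708.T4.H
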