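import Pool.Agent.Lib.MP_391708_nt.T4.FSpecA
import Pool.Agent.Lib.MP_391708_nt.T4.FSpecB

/-!
# Group H: first and second moment in the critical window (`SpecAA`)

Base measure `x ∈ Gam N 1 2`, `d = dd x`, `e = ee x`, `M = mm x`, `d e = M² + 1`.  A datum
`a = ((g₁, m₁, n₁), (g₂, m₂, n₂), u, v)` colours the sieving primes of `d` (`g₁ m₁ n₁`) and of `e`
(`g₂ m₂ n₂`), `u ∣ d`, `v ∣ e`.  `G = g₁ g₂ u v`, `P = d m₂ / (g₁ m₁ u)`, `Q = e m₁ / (g₂ m₂ v)`.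
Identities: `m₂ g₁ m₁ u F₁ = qf x (m₂ D) (-(g₁ m₁ u))`, `m₁ g₂ m₂ v F₂ = qf x (g₂ m₂ v) (m₁ D₂)`.
-/

set_option autoImplicit false

namespace Pool.Agent.Lib.MP391708.T4

open Finset Filter Topology
open Pool.Agent.Lib.MP391708.Eqd (V cross dot nsq pairs)
open scoped Classical

noncomputable section

namespace H

/-- `M` as a natural number -/
abbrev Md (x : VV) : ℕ := (mm x).natAbs

/-- `∏_{l ∣ M² + 1} (1 + C / l)` -/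
def pf (p : Prm) (N : ℕ) (C : ℝ) (x : VV) : ℝ :=
  ∏ l ∈ (PP p N).filter (fun l => l ∣ Md x ^ 2 + 1), (1 + C / (l : ℝ))

/-! ## F: two more interface statements -/

/-- the proportion with `q ∣ M² + 1` -/
def SpecPQ : Prop :=
  ∃ C : ℝ, 0 < C ∧ Good (fun p => ∀ᶠ N : ℕ in atTop, ∀ q ∈ PP p N,
    (((Gam N 1 2).filter (fun x => q ∣ Md x ^ 2 + 1)).card : ℝ) ≤
      C / q * ((Gam N 1 2).card : ℝ))

/-- Chernoff bound for the number of sieving primes -/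
def SpecFC : Prop :=
  ∀ L : ℝ, 0 < L → L ≤ 1 → ∃ C : ℝ, 0 < C ∧ Good (fun p => ∀ᶠ N : ℕ in atTop,
    ∑ x ∈ Gam N 1 2, L ^ om p N (Md x ^ 2 + 1) ≤
      C * Real.exp (-(2 * (1 - L) * S0 p N)) * ((Gam N 1 2).card : ℝ))

/-! ## Data -/

abbrev Dt := (ℕ × ℕ × ℕ) × (ℕ × ℕ × ℕ) × ℕ × ℕ

def g1 (a : Dt) : ℕ := a.1.1
def m1 (a : Dt) : ℕ := a.1.2.1
def n1 (a : Dt) : ℕ := a.1.2.2
def g2 (a : Dt) : ℕ := a.2.1.1
def m2 (a : Dt) : ℕ := a.2.1.2.1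
def n2 (a : Dt) : ℕ := a.2.1.2.2
def du (a : Dt) : ℕ := a.2.2.1
def dv (a : Dt) : ℕ := a.2.2.2
/-- sieving part of `d` -/
def ds (a : Dt) : ℕ := g1 a * m1 a * n1 a
/-- sieving part of `e` -/
def es (a : Dt) : ℕ := g2 a * m2 a * n2 a
def dG (a : Dt) : ℕ := g1 a * g2 a * du a * dv a

/-- all data -/
def DA (p : Prm) (N : ℕ) : Finset Dt :=
  (((range (⌈ML p N⌉₊ + 1) ×ˢ range (⌈ML p N⌉₊ + 1) ×ˢ range (⌈ML p N⌉₊ + 1)) ×ˢ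
    (range (⌈ML p N⌉₊ + 1) ×ˢ range (⌈ML p N⌉₊ + 1) ×ˢ range (⌈ML p N⌉₊ + 1)) ×ˢ
      Uu p N ×ˢ Vv p N)).filter (fun a =>
    Squarefree (ds a * es a) ∧ (∀ l : ℕ, l.Prime → l ∣ ds a * es a → l ∈ PP p N) ∧
    (ds a : ℝ) ≤ zz p N ^ p.K ∧ (es a : ℝ) ≤ zz p N ^ p.K)

/-- `a` is a datum over `x` -/
def fits (p : Prm) (N : ℕ) (a : Dt) (x : VV) : Prop :=
  tame p (Md x ^ 2 + 1) ∧ (du a : ℤ) ∣ dd x ∧ (dv a : ℤ) ∣ ee x ∧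
  ∀ l ∈ PP p N, ((l : ℤ) ∣ dd x ↔ l ∣ ds a) ∧ ((l : ℤ) ∣ ee x ↔ l ∣ es a) ∧
    ¬ (l : ℤ) ^ 2 ∣ dd x ∧ ¬ (l : ℤ) ^ 2 ∣ ee x

def Pd (a : Dt) (x : VV) : ℕ := (dd x).natAbs * m2 a / (g1 a * m1 a * du a)
def Qd (a : Dt) (x : VV) : ℕ := (ee x).natAbs * m1 a / (g2 a * m2 a * dv a)

/-- the relation with datum `a` and `t = (D, X)` over `x` -/
def rel (a : Dt) (t : ℤ × ℕ) (x : VV) : Rl := (Md x, dG a, Pd a x, Qd a x, t)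

/-- `(D, X)` over `(a, x)` -/
def TS (p : Prm) (N : ℕ) (a : Dt) (x : VV) : Finset (ℤ × ℕ) :=
  S1 p N (Md x) (dG a) (Pd a x) (Qd a x)

/-! ## Weights and sums -/

/-- the normalizing constant -/
def k0 (p : Prm) (N : ℕ) : ℝ := Real.pi / 2 * kp p N (5 / 2) * Su p N * Sv p N

/-- the weight of a relation, `y = 1/6` for the main case -/
def wt (p : Prm) (N : ℕ) (y : ℝ) (r : Rl) : ℝ :=
  (1 / 3 : ℝ) ^ om p N (rM r ^ 2 + 1) / k0 p N * ((rX r : ℝ) / rG r) / rp (rD r).natAbs *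
    y ^ om p N (rX r) * tilt p N y y r

/-- `X ∣ F₁` -/
def iX (r : Rl) : ℝ := if (rX r : ℤ) ∣ F1 r then 1 else 0

/-- the probability of `X ∣ F₁` given the sieving part -/
def iH (p : Prm) (N : ℕ) (r : Rl) : ℝ :=
  (if (sm p N (rX r) : ℤ) ∣ F1 r then 1 else 0) * dn (rX r / sm p N (rX r))

/-- sum over the relations over `x` with the event `Ev` -/
def Zx (p : Prm) (N : ℕ) (y : ℝ) (Ev : Rl → Prop) (x : VV) : ℝ :=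
  ∑ a ∈ (DA p N).filter (fun a => fits p N a x),
    ∑ t ∈ (TS p N a x).filter (fun t => Ev (rel a t x)), wt p N y (rel a t x) * iX (rel a t x)

/-- the same with `iX` replaced by `iH` -/
def Zh (p : Prm) (N : ℕ) (y : ℝ) (Ev : Rl → Prop) (x : VV) : ℝ :=
  ∑ a ∈ (DA p N).filter (fun a => fits p N a x),
    ∑ t ∈ (TS p N a x).filter (fun t => Ev (rel a t x)), wt p N y (rel a t x) * iH p N (rel a t x)

/-! ### Events -/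

def ev0 : Rl → Prop := fun _ => True
/-- two of `X, T, R` share the sieving prime `q`, or `q²` divides one of them; `q ∤ M² + 1` -/
def evB (q : ℕ) (r : Rl) : Prop := ¬ q ∣ rM r ^ 2 + 1 ∧
  ((q : ℤ) ^ 2 ∣ F1 r ∨ (q : ℤ) ^ 2 ∣ F2 r ∨ (¬ q ∣ rX r ∧ (q : ℤ) ∣ F1 r ∧ (q : ℤ) ∣ F2 r))
def evL (q : ℕ) (r : Rl) : Prop := (q : ℤ) ∣ rX r * F1 r * F2 r
def evM (q : ℕ) (r : Rl) : Prop := q ∣ rM r ^ 2 + 1 ∧ evL q r
def evN (q : ℕ) (r : Rl) : Prop := q ∣ rM r ^ 2 + 1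
/-- the events at sieving primes -/
def Evs (p : Prm) (N : ℕ) (Ev : Rl → Prop) : Prop :=
  Ev = ev0 ∨ ∃ q ∈ PP p N, Ev = evB q ∨ Ev = evL q ∨ Ev = evM q ∨ Ev = evN q
/-- a prime `> E` divides `D` and `Q` -/
def evD (p : Prm) (r : Rl) : Prop := ∃ l : ℕ, l.Prime ∧ p.E < l ∧ (l : ℤ) ∣ rD r ∧ l ∣ rQ r

/-! ## Modules -/

/-- **H1a** (algebra of a datum). For `x ∈ Gam N 1 2`, `a` a datum that fits: divisibilities,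
`G P Q = M² + 1`, the quadratic forms, the sieving parts. -/
def SpecH1a : Prop :=
  Good (fun p => ∀ᶠ N : ℕ in atTop, ∀ x ∈ Gam N 1 2, ∀ a ∈ DA p N, fits p N a x →
    Pd a x * (g1 a * m1 a * du a) = (dd x).natAbs * m2 a ∧
    Qd a x * (g2 a * m2 a * dv a) = (ee x).natAbs * m1 a ∧
    dG a * Pd a x * Qd a x = Md x ^ 2 + 1 ∧
    sm p N (dd x).natAbs = ds a ∧ sm p N (ee x).natAbs = es a ∧
    sm p N (Md x ^ 2 + 1) = ds a * es a ∧ sm p N (dG a) = g1 a * g2 a ∧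
    sm p N (Pd a x) = m2 a * n1 a ∧ sm p N (Qd a x) = m1 a * n2 a ∧ Squarefree (dG a) ∧
    Adm p N (Md x) (dG a) (Pd a x) (Qd a x) ∧
    ∀ t : ℤ × ℕ, ((m2 a * g1 a * m1 a * du a : ℕ) : ℤ) * F1 (rel a t x) =
        qf x (m2 a * t.1) (-((g1 a * m1 a * du a : ℕ) : ℤ)) ∧
      ((m1 a * g2 a * m2 a * dv a : ℕ) : ℤ) * F2 (rel a t x) =
        qf x ((g2 a * m2 a * dv a : ℕ) : ℤ) (m1 a * D2 (rel a t x)))

/-- **H1b** (injectivity): the relation and `x` determine the datum. -/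
def SpecH1b : Prop :=
  Good (fun p => ∀ᶠ N : ℕ in atTop, ∀ x ∈ Gam N 1 2, ∀ a ∈ DA p N, ∀ a' ∈ DA p N,
    fits p N a x → fits p N a' x → ∀ t t' : ℤ × ℕ, rel a t x = rel a' t' x → a = a' ∧ t = t')

/-- **H1c** (number of data): the data over a typical `x`. -/
def SpecH1c : Prop :=
  ∀ δ e₁ : ℝ, Good (fun p => ∀ᶠ N : ℕ in atTop, ∀ x ∈ Gam N 1 2,
    (1 / 3 : ℝ) ^ om p N (Md x ^ 2 + 1) *
        ((DA p N).filter (fun a => fits p N a x)).card ≤ Tu p N x * Su p N * (Tv p N x * Sv p N) ∧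
    (typ p N δ e₁ x → (1 / 3 : ℝ) ^ om p N (Md x ^ 2 + 1) *
        ((DA p N).filter (fun a => fits p N a x)).card = Tu p N x * Su p N * (Tv p N x * Sv p N)))

/-- conditions on `(a, t)` not involving `x` -/
def okT (p : Prm) (N : ℕ) (a : Dt) (t : ℤ × ℕ) : Prop :=
  a ∈ DA p N ∧ t ∈ dbox N ∧ 0 < t.1 ∧ DX p 0 (dG a) 0 0 t ∧
  (∀ l ∈ PP p N, (l : ℤ) ∣ t.1 → ¬ l ∣ m1 a * n2 a) ∧
  Nat.Coprime (sm p N t.2) (ds a * es a) ∧ (sm p N t.2 : ℝ) ≤ zz p N ^ p.K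

/-- the window of `(a, t)` -/
def aL (a : Dt) (t : ℤ × ℕ) : ℝ :=
  max 1 (max (2 * (g1 a * m1 a * du a) / (m2 a * t.1))
    (((t.2 : ℝ) - dG a) / t.1 * m1 a / (2 * (g2 a * m2 a * dv a))))
def bL (a : Dt) (t : ℤ × ℕ) : ℝ :=
  min 2 (min (3 * (g1 a * m1 a * du a) / (m2 a * t.1))
    (((t.2 : ℝ) - dG a) / t.1 * m1 a / (g2 a * m2 a * dv a)))

/-- **H2** (the conditions of `S1` for a fixed `(a, t)`): the window is an interval for `d / M`. -/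
def SpecH2 : Prop :=
  Good (fun p => ∀ᶠ N : ℕ in atTop, ∀ a ∈ DA p N, ∀ t : ℤ × ℕ, ∀ x ∈ Gam N 1 2, fits p N a x →
    (t ∈ TS p N a x ↔ okT p N a t ∧ x ∈ Gam N (aL a t) (bL a t)))

/-- the local weight of `(a, t)` (without the conditions at the primes `≥ z`) -/
def lw (p : Prm) (N : ℕ) (y : ℝ) (Ev : Rl → Prop) (a : Dt) (t : ℤ × ℕ) (x : VV) : ℝ :=
  (if fits p N a x ∧ Ev (rel a t x) ∧ (sm p N t.2 : ℤ) ∣ F1 (rel a t x) then 1 else 0) *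
    tilt p N y y (rel a t x)

/-- **H3** (local structure). For `(a, t)` with `okT` and an event at a sieving prime, `lw` is a
product of local functions on the window, with modulus `m` composed of primes `< z`, `u`, `v`. -/
def SpecH3 : Prop :=
  ∀ y : ℝ, 0 < y → y ≤ 1 → Good (fun p => ∀ᶠ N : ℕ in atTop, ∀ Ev, Evs p N Ev →
    ∀ (a : Dt) (t : ℤ × ℕ), okT p N a t → ∃ (m : ℕ) (w F : VV → ℝ) (f : ℕ → VV → ℝ),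
      0 < m ∧ (m : ℝ) ≤ zz p N ^ (100 * (p.K + 1)) * Y2 p N * Y4 p N ∧
      (∀ l : ℕ, l.Prime → l ∣ m → (l : ℝ) < zz p N ∨ l = du a ∨ l = dv a) ∧
      Loc (PP p N) 10 m w F f ∧
      ∀ x ∈ Gam N 1 2, x ∈ Gam N (aL a t) (bL a t) → w x = lw p N y Ev a t x)

/-- **HCMP** (from H1, H2, H3, `SpecCMP`). Exchange the sums: `(a, t)` with `okT` outside,
`x ∈ Gam N (aL a t) (bL a t)` inside, weight `lw`; `om (M² + 1)` is the number of primes of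
`ds a * es a`, constant for fixed `a`; `[X ∣ F₁] = [sm X ∣ F₁] [X_R ∣ qf x (m₂ D) (-g₁ m₁ u)]`,
`X_R = X / sm X`; the number of `(a, t)` is `≤ N ^ (c / 2)`. -/
def SpecHC : Prop :=
  ∃ c : ℝ, 0 < c ∧ ∀ y ε L : ℝ, 0 < y → y ≤ 1 → 0 < ε → 0 < L → L ≤ 1 →
    Good (fun p => ∀ᶠ N : ℕ in atTop,
      (∀ Ev, Evs p N Ev → ∑ x ∈ Gam N 1 2, L ^ om p N (Md x ^ 2 + 1) * Zx p N y Ev x ≤
        (1 + ε) * ∑ x ∈ Gam N 1 2, L ^ om p N (Md x ^ 2 + 1) * Zh p N y Ev x +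
          (N : ℝ) ^ (1 - c)) ∧
      (1 - ε) * ∑ x ∈ Gam N 1 2, Zh p N y ev0 x - (N : ℝ) ^ (1 - c) ≤
        ∑ x ∈ Gam N 1 2, Zx p N y ev0 x)

/-- the function of `SpecAA` -/
def Zf (p : Prm) (N : ℕ) (δ e₁ : ℝ) (x : VV) (r : Rl) : ℝ :=
  if x ∈ Gam N 1 2 ∧ typ p N δ e₁ x ∧ r ∈ RP p e₁ N ∧ rM r = Md x ∧
    ∃ a ∈ DA p N, fits p N a x ∧ r = rel a (rD r, rX r) x then wt p N (1 / 6) r else 0

/-- **HSEC** (from H1–H3, `SpecCMP`, `SpecNG`, `SpecA2`, `SpecA3`). Expand the square. The pairs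
with `r ≠ r'` that are nongeneric are `≤ N^{o(1)} N z^{-1/2}` by NG; `r = r'`:
`≤ sup wt · ∑ Zf`, `wt ≤ C WC ≤ C e^{-S0/20}`; generic pairs: `X_R, X'_R` coprime and prime to
`G G'`: CMP for the product of the two local weights. -/
def SpecHS : Prop :=
  ∃ e₀ : ℝ, 0 < e₀ ∧ ∀ ε δ e₁ : ℝ, 0 < ε → 0 < e₁ → e₁ ≤ e₀ → Good (fun p => ∀ᶠ N : ℕ in atTop,
    ∑ x ∈ Gam N 1 2, (∑ r ∈ RP p e₁ N, Zf p N δ e₁ x r) ^ 2 ≤
      (1 + ε) * ∑ x ∈ Gam N 1 2, (Zh p N (1 / 6) ev0 x) ^ 2 + ε * ((Gam N 1 2).card : ℝ))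

/-- **HPT** (pointwise, from `SpecPHI`, `SpecPHU`, H1). -/
def SpecHP : Prop :=
  (∀ ε : ℝ, 0 < ε → ∃ δ : ℝ, 0 < δ ∧ ∀ e₁ : ℝ, Good (fun p => ∀ᶠ N : ℕ in atTop,
    ∀ x ∈ Gam N 1 2, typ p N δ e₁ x →
      |Zh p N (1 / 6) ev0 x - Tu p N x * Tv p N x| ≤ ε * (Tu p N x * Tv p N x))) ∧
  (∀ y : ℝ, 0 < y → y ≤ 1 → ∃ C : ℝ, 0 < C ∧ Good (fun p => ∀ᶠ N : ℕ in atTop,
    ∀ x ∈ Gam N 1 2, Zh p N y ev0 x ≤
      C * Real.exp (-((1 / 2 - 3 * y) * S0 p N)) * (Tu p N x * Tv p N x) * pf p N C x)) ∧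
  ∃ C : ℝ, 0 < C ∧ Good (fun p => ∀ᶠ N : ℕ in atTop, ∀ x ∈ Gam N 1 2, ∀ q ∈ PP p N,
    Zh p N (1 / 6) (evB q) x ≤ C / (q : ℝ) ^ 2 * (Tu p N x * Tv p N x) * pf p N C x ∧
    Zh p N (1 / 6) (evL q) x ≤ C / (q : ℝ) * (Tu p N x * Tv p N x) * pf p N C x ∧
    Zh p N (1 / 6) (evM q) x ≤ (if q ∣ Md x ^ 2 + 1 then
      C / (q : ℝ) * (Tu p N x * Tv p N x) * pf p N C x else 0) ∧
    Zh p N (1 / 6) (evN q) x ≤ (if q ∣ Md x ^ 2 + 1 then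
      C * (Tu p N x * Tv p N x) * pf p N C x else 0))

/-- **HMOM** (from HPT, F: `SpecTyp`, `SpecTM`, `SpecPM`, `SpecPQ`, `SpecFC`, Cauchy–Schwarz;
`∑_{q > E} q ^ (-3/2)` is small). -/
def SpecHM : Prop :=
  (∀ ε : ℝ, 0 < ε → Good (fun p => ∀ᶠ N : ℕ in atTop,
    (1 - ε) * ((Gam N 1 2).card : ℝ) ≤ ∑ x ∈ Gam N 1 2, Zh p N (1 / 6) ev0 x ∧
    ∑ x ∈ Gam N 1 2, (Zh p N (1 / 6) ev0 x) ^ 2 ≤ (1 + ε) * ((Gam N 1 2).card : ℝ) ∧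
    ∑ q ∈ PP p N, ∑ x ∈ Gam N 1 2, Zh p N (1 / 6) (evB q) x ≤ ε * ((Gam N 1 2).card : ℝ) ∧
    ∑ q ∈ PP p N, ∑ x ∈ Gam N 1 2, Zh p N (1 / 6) (evM q) x ≤ ε * ((Gam N 1 2).card : ℝ) ∧
    ∑ q ∈ PP p N, 1 / (q : ℝ) * ∑ x ∈ Gam N 1 2, Zh p N (1 / 6) (evN q) x ≤
      ε * ((Gam N 1 2).card : ℝ))) ∧
  (∃ C : ℝ, 0 < C ∧ Good (fun p => ∀ᶠ N : ℕ in atTop,
    ∑ q ∈ PP p N, Real.log q * ∑ x ∈ Gam N 1 2, Zh p N (1 / 6) (evL q) x ≤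
      C * Real.log (zz p N) * ((Gam N 1 2).card : ℝ))) ∧
  ∀ e₁ : ℝ, 0 < e₁ → e₁ < 1 / 2 → ∃ L : ℝ, 0 < L ∧ L < 1 ∧ ∀ ε : ℝ, 0 < ε →
    Good (fun p => ∀ᶠ N : ℕ in atTop,
      L ^ (-((1 / 2 - e₁) * S0 p N)) * ∑ x ∈ Gam N 1 2, Zh p N (L / 6) ev0 x ≤
        ε * ((Gam N 1 2).card : ℝ) ∧
      L ^ (-((2 - e₁) * S0 p N)) *
          ∑ x ∈ Gam N 1 2, L ^ om p N (Md x ^ 2 + 1) * Zh p N (1 / 6) ev0 x ≤
        ε * ((Gam N 1 2).card : ℝ))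

/-- **HDQ**: a prime `≥ z` divides `D` and `Q` (at the primes of `PP` this is excluded in `S1`,
`Q` has no prime factor `≡ 3 (mod 4)`). By `SpecCMP` with `H₂ = l`, `(s₂, t₂) = (0, 1)`, and a crude
bound for the sum over `(D, X)`, `l ∣ D`; for `l > z ^ (10 K)` trivially. -/
def SpecHD : Prop :=
  ∀ ε : ℝ, 0 < ε → Good (fun p => ∀ᶠ N : ℕ in atTop,
    ∑ x ∈ Gam N 1 2, Zx p N (1 / 6) (evD p) x ≤ ε * ((Gam N 1 2).card : ℝ))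

/-- **HBAD** (from HC, HM, HD): the relations over typical `x` that are not in `RP`. -/
def SpecHB : Prop :=
  ∀ ε δ e₁ : ℝ, 0 < ε → 0 < e₁ → e₁ < 1 / 2 → Good (fun p => ∀ᶠ N : ℕ in atTop,
    ∑ x ∈ (Gam N 1 2).filter (fun x => typ p N δ e₁ x),
      Zx p N (1 / 6) (fun r => r ∉ RP p e₁ N) x ≤ ε * ((Gam N 1 2).card : ℝ))

/-- **HNT** (from HC, HM): the relations over nontypical `x`. If `sm d > z ^ K`, or `l² ∣ M² + 1`,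
or not tame, there is no datum; `∑ 1/l > δ` by `evN`; `om` small by the second part of HM (3). -/
def SpecHN : Prop :=
  ∀ ε δ e₁ : ℝ, 0 < ε → 0 < δ → 0 < e₁ → e₁ < 1 / 2 → Good (fun p => ∀ᶠ N : ℕ in atTop,
    ∑ x ∈ (Gam N 1 2).filter (fun x => ¬ typ p N δ e₁ x), Zx p N (1 / 6) ev0 x ≤
      ε * ((Gam N 1 2).card : ℝ))

/-- **HWC**: the weight on `RP` -/
def SpecHW : Prop :=
  ∀ e₁ : ℝ, 0 < e₁ → Good (fun p => ∃ C : ℝ, 0 < C ∧ ∀ᶠ N : ℕ in atTop, ∀ r ∈ RP p e₁ N,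
    wt p N (1 / 6) r ≤ C * WC p N r)

/-- **HAA** (assembly). For `e₁` larger than the `e₀` of HS take `min e₀ e₁` (`RP` is monotone in
`e₁`) -/
def SpecHA : Prop :=
  SpecH1b → SpecHC → SpecHS → SpecHM → SpecHB → SpecHN → SpecHW → SpecCNT → SpecAA

end H

end

end Pool.Agent.Lib.MP391708.T4
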